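import Pool.Agent.W_MP_7dc84e_h31.Fin

set_option autoImplicit false

/-!
# MP_7dc84e_lc, Q1 : concentrated club guessing can fail on a reflecting stationary set

If there is a supercompact cardinal (`DCT.IsSupercompact κ`), there is a countable well-founded model `(M, E)` of ZFC with
`CGM.NegQ1 E`: for some infinite cardinal `λ` there are a stationary set `S ⊆ E^{λ⁺}_{cf(λ)}` which reflects stationarily often
and a stationary `T ⊆ λ⁺` such that there is no `T`-concentrated club guessing sequence on `S`.  The notions are defined in
`Pool/Agent/W_MP_7dc84e_h31/Stmt.lean`.

Proof: `λ` is a strong limit cardinal of cofinality `ω` above the supercompact cardinal `κ`.  First force with the countable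
support product of all `σ`-closed preorders on ordinals below `κ`.  Then iterate with supports of size `≤ λ`: initial segments of
`S` and `T`, and for every sequence `⟨C_α : α ∈ S⟩` of cofinal sets a club `D` with `C_α ⊄ D ∩ T` for all `α ∈ S`.  The heights of the
conditions are kept out of `T`, so that different choices at one coordinate give clubs which are disjoint in `T`; then at a limit
`α` of a sequence of systems of conditions, at most one choice at each coordinate is excluded by the value of `C_α`, and
`α` can be put into `S`.  By supercompactness `S` reflects stationarily often: the trace of the iteration on a set of size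
`< κ` is a factor of the preliminary forcing.
-/

universe u

namespace Pool.Agent.Results.MP_7dc84e_lc.NoConcentratedGuessing

theorem result (κ : Cardinal.{u}) (h : DCT.IsSupercompact κ) :
    ∃ (M : Type (u + 1)) (E : M → M → Prop), Countable M ∧ WellFounded E ∧ HESR.IsZFC E ∧
      CGM.NegQ1 E :=
  CG.main κ h

end Pool.Agent.Results.MP_7dc84e_lc.NoConcentratedGuessing
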